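import Pool.Agent.H60.AB.Prd

/-!
# [H60 AB Chn] the chain of subspaces of principal parts (MP_e49dc9_ag, abundance)
-/

set_option autoImplicit false

namespace Pool.Agent.H60.AB

variable {F K κ ι : Type} [Field F] [Field K] [Field κ] [Algebra F K] [Algebra F κ]

namespace PP

variable (D : PP F K κ ι) {d : ℕ}

theorem L_le_H (ax : D.Ax d) : D.L 0 1 ≤ D.H := fun f hf => ⟨(D.mem_L.1 hf).1, ax.lamG 0 1 f hf⟩

/-- the functions with `0 ≤ v i` -/
def V1 (i : ι) : Submodule F K where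
  carrier := {f | f ≠ 0 → 0 ≤ D.v i f}
  zero_mem' := fun h => absurd rfl h
  add_mem' := by
    intro f g hf hg h
    by_cases h1 : f = 0
    · rw [h1, zero_add] at h ⊢; exact hg h
    by_cases h2 : g = 0
    · rw [h2, add_zero] at h ⊢; exact hf h
    exact (le_min (hf h1) (hg h2)).trans (D.v_add i f g h1 h2 h)
  smul_mem' := by
    intro a f hf h
    have ha : a ≠ 0 := fun h0 => h (by rw [h0, zero_smul])
    have h1 : f ≠ 0 := fun h0 => h (by rw [h0, smul_zero])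
    rw [D.v_smul i a f ha h1]
    exact hf h1

/-- the conclusion of the chain -/
def Cn (H' : Submodule F K) : Prop :=
  ∃ a₀ : ℕ, 0 < a₀ ∧ ∀ a : ℕ, a₀ ∣ a → 0 < a → ∃ B : ℕ, ∃ Θ : H' →ₗ[F] K,
    (∀ f N, B + 1 ≤ N → Θ f ∈ D.HH a N N) ∧
    (∀ i, (∀ f ∈ H', f ≠ 0 → 0 ≤ D.v i f) → ∀ f, Θ f ≠ 0 → 0 ≤ D.v i (Θ f)) ∧
    ∀ f : H', (∀ i, Θ f ≠ 0 → -(a : ℤ) * D.w i ≤ D.v i (Θ f)) → (f : K) ∈ D.L 0 1

theorem cn_base (H' : Submodule F K) (h : H' ≤ D.L 0 1) : D.Cn H' := by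
  refine ⟨1, one_pos, fun a _ _ => ⟨0, 0, ?_, ?_, ?_⟩⟩
  · intro f N _
    rw [LinearMap.zero_apply]; exact Submodule.zero_mem _
  · intro i _ f h
    exact absurd (LinearMap.zero_apply f) h
  · intro f _
    exact h f.2

/-- an extremal element -/
theorem ext_el [Finite ι] (H' : Submodule F K) (hH : H' ≤ D.H) (j₀ : ℕ) (hj : H' ≤ D.L j₀ 1)
    (hne : ¬ H' ≤ D.L 0 1) : ∃ i₀ : ι, ∃ n₀ : ℕ, 0 < n₀ ∧ (∃ f₀ ∈ H', f₀ ≠ 0 ∧ D.v i₀ f₀ = -(n₀ : ℤ)) ∧
      ∀ f ∈ H', ∀ i, f ≠ 0 → -((n₀ : ℤ) * D.w i) ≤ D.w i₀ * D.v i f := by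
  classical
  have := Fintype.ofFinite ι
  obtain ⟨f, hf, hf1⟩ := Set.not_subset.1 hne
  have hfL : f ∈ D.Li 1 := (hH hf).1
  have hex : ∃ i, f ≠ 0 ∧ D.v i f < 0 := by
    by_contra hcon
    push Not at hcon
    refine hf1 (D.mem_L.2 ⟨hfL, fun i h0 => ?_⟩)
    have := hcon i h0
    simpa using this
  let Ps : Set (ι × ℕ) := {p | 0 < p.2 ∧ ∃ f ∈ H', f ≠ 0 ∧ D.v p.1 f = -(p.2 : ℤ)}
  have hfin : Ps.Finite := by
    have hM : ∃ M : ℕ, ∀ i, (j₀ : ℤ) * D.w i ≤ M := by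
      refine ⟨∑ i, ((j₀ : ℤ) * D.w i).toNat, fun i => ?_⟩
      have h1 : ((j₀ : ℤ) * D.w i) ≤ (((j₀ : ℤ) * D.w i).toNat : ℤ) := Int.self_le_toNat _
      have h2 : ((j₀ : ℤ) * D.w i).toNat ≤ ∑ i, ((j₀ : ℤ) * D.w i).toNat :=
        Finset.single_le_sum (f := fun i => ((j₀ : ℤ) * D.w i).toNat) (fun _ _ => Nat.zero_le _) (Finset.mem_univ i)
      exact h1.trans (by exact_mod_cast h2)
    obtain ⟨M, hM⟩ := hM
    refine Set.Finite.subset ((Set.finite_univ (α := ι)).prod (Set.finite_Iic M)) ?_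
    rintro ⟨i, n⟩ ⟨_, g, hg, hg0, hg1⟩
    refine ⟨Set.mem_univ _, ?_⟩
    have h3 := (D.mem_L.1 (hj hg)).2 i hg0
    have h4 := hM i
    simp only at hg1
    rw [hg1] at h3
    show n ≤ M
    have : (n : ℤ) ≤ M := by linarith
    exact_mod_cast this
  have hPne : Ps.Nonempty := by
    obtain ⟨i, h0, h1⟩ := hex
    refine ⟨(i, (-D.v i f).toNat), ?_, f, hf, h0, ?_⟩
    · show 0 < (-D.v i f).toNat
      omega
    · show D.v i f = -(((-D.v i f).toNat : ℕ) : ℤ)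
      omega
  obtain ⟨⟨i₀, n₀⟩, hp, hmax⟩ := hfin.exists_maximalFor (fun p => ((p.2 : ℚ) / (D.w p.1 : ℚ))) Ps hPne
  obtain ⟨hn₀, f₀, hf₀, hf₀0, hf₀1⟩ := hp
  refine ⟨i₀, n₀, hn₀, ⟨f₀, hf₀, hf₀0, hf₀1⟩, fun g hg i hg0 => ?_⟩
  by_cases h1 : 0 ≤ D.v i g
  · have h2 := D.w_pos i
    have h3 := D.w_pos i₀
    have h4 : (0 : ℤ) ≤ (n₀ : ℤ) * D.w i := by positivity
    have h5 : 0 ≤ D.w i₀ * D.v i g := mul_nonneg h3.le h1
    linarith
  · push Not at h1
    have hmem : (i, (-D.v i g).toNat) ∈ Ps := by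
      refine ⟨?_, g, hg, hg0, ?_⟩
      · show 0 < (-D.v i g).toNat
        omega
      · show D.v i g = -(((-D.v i g).toNat : ℕ) : ℤ)
        omega
    have h2 : (((-D.v i g).toNat : ℕ) : ℚ) / (D.w i : ℚ) ≤ (n₀ : ℚ) / (D.w i₀ : ℚ) := by
      rcases le_total ((((-D.v i g).toNat : ℕ) : ℚ) / (D.w i : ℚ)) ((n₀ : ℚ) / (D.w i₀ : ℚ)) with h | h
      · exact h
      · exact hmax hmem h
    have h3 : (((-D.v i g).toNat : ℕ) : ℚ) = ((-D.v i g : ℤ) : ℚ) := by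
      have : (((-D.v i g).toNat : ℕ) : ℤ) = -D.v i g := by omega
      exact_mod_cast this
    have hwi : (0 : ℚ) < (D.w i : ℚ) := by exact_mod_cast D.w_pos i
    have hwi0 : (0 : ℚ) < (D.w i₀ : ℚ) := by exact_mod_cast D.w_pos i₀
    rw [h3, div_le_div_iff₀ hwi hwi0] at h2
    have h4 : (-D.v i g) * D.w i₀ ≤ (n₀ : ℤ) * D.w i := by exact_mod_cast h2
    linarith

/-- one step of the chain -/
theorem cn_step (ax : D.Ax d) (H' : Submodule F K) (hH : H' ≤ D.H) (i₀ : ι) (n₀ : ℕ) (hn₀ : 0 < n₀)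
    (f₀ : K) (hf₀ : f₀ ∈ H') (hf₀0 : f₀ ≠ 0) (hf₀1 : D.v i₀ f₀ = -(n₀ : ℤ))
    (hmax : ∀ f ∈ H', ∀ i, f ≠ 0 → -((n₀ : ℤ) * D.w i) ≤ D.w i₀ * D.v i f)
    (ih : D.Cn (H' ⊓ D.V1 i₀)) : D.Cn H' := by
  classical
  obtain ⟨a₁, ha₁, ih⟩ := ih
  refine ⟨a₁ * n₀, Nat.mul_pos ha₁ hn₀, fun a ha hapos => ?_⟩
  obtain ⟨B₁, Θ₁, h1, h2, h3⟩ := ih a ((Dvd.intro _ rfl).trans ha) hapos
  obtain ⟨q, hq⟩ : n₀ ∣ a := (Dvd.intro_left _ rfl).trans ha
  have hw0 := D.w_pos i₀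
  obtain ⟨w₀, hw₀⟩ : ∃ w₀ : ℕ, (w₀ : ℤ) = D.w i₀ := ⟨(D.w i₀).toNat, Int.toNat_of_nonneg hw0.le⟩
  set B : ℕ := q * w₀ with hB
  have hBa : (B : ℤ) * n₀ = (a : ℤ) * D.w i₀ := by
    rw [hB, hq, ← hw₀]; push_cast; ring
  -- complement
  set P : Submodule F H' := (D.V1 i₀).comap H'.subtype with hP
  obtain ⟨Q, hPQ⟩ := Submodule.exists_isCompl P
  have key : ∀ f : H', ∃ p ∈ P, ∃ k ∈ Q, f = p + k := by
    intro f
    have : f ∈ P ⊔ Q := by rw [hPQ.sup_eq_top]; exact Submodule.mem_top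
    obtain ⟨p, hp, k, hk, h⟩ := Submodule.mem_sup.1 this
    exact ⟨p, hp, k, hk, h.symm⟩
  let pP : H' →ₗ[F] P := Submodule.projectionOnto P Q hPQ
  let pQ : H' →ₗ[F] Q := Submodule.projectionOnto Q P hPQ.symm
  have hdec : ∀ f : H', ((pP f : H') : K) + ((pQ f : H') : K) = (f : K) := by
    intro f
    have := Submodule.projection_add_projection_eq_self hPQ f
    rw [← Submodule.coe_projectionOnto_apply, ← Submodule.coe_projectionOnto_apply] at this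
    exact congrArg Subtype.val this
  let toP : P →ₗ[F] (H' ⊓ D.V1 i₀ : Submodule F K) :=
    { toFun := fun p => ⟨((p : H') : K), ⟨(p : H').2, p.2⟩⟩
      map_add' := fun _ _ => rfl
      map_smul' := fun _ _ => rfl }
  let mQ : Q →ₗ[F] K :=
    { toFun := fun k => f₀ ^ B * ((k : H') : K)
      map_add' := fun x y => by
        show f₀ ^ B * (((x : H') : K) + ((y : H') : K)) = _
        rw [mul_add]
      map_smul' := fun c x => by
        show f₀ ^ B * (c • ((x : H') : K)) = c • (f₀ ^ B * ((x : H') : K))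
        rw [mul_smul_comm] }
  refine ⟨max B B₁, mQ.comp pQ + (Θ₁.comp toP).comp pP, ?_, ?_, ?_⟩
  · intro f N hN
    have e : (mQ.comp pQ + (Θ₁.comp toP).comp pP) f = f₀ ^ B * ((pQ f : H') : K) + Θ₁ (toP (pP f)) := rfl
    rw [e]
    refine Submodule.add_mem _ ?_ (h1 _ N (le_trans (Nat.succ_le_succ (le_max_right B B₁)) hN))
    refine D.prod_HH ax H' hH (D.w i₀) hw0 (fun i => -((n₀ : ℤ) * D.w i)) ?_ ?_ a B ?_ N
      (le_trans (Nat.succ_le_succ (le_max_left B B₁)) hN) _ ?_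
    · intro i
      have := D.w_pos i
      have h5 : (0 : ℤ) ≤ (n₀ : ℤ) * D.w i := by positivity
      linarith
    · intro g hg i hg0
      exact hmax g hg i hg0
    · intro i
      have : D.w i₀ * (-(a : ℤ) * D.w i) = (B : ℤ) * -((n₀ : ℤ) * D.w i) := by
        have : D.w i₀ * (-(a : ℤ) * D.w i) = -((a : ℤ) * D.w i₀) * D.w i := by ring
        rw [this, ← hBa]; ring
      exact this.le
    · rw [pow_succ]
      exact Submodule.mul_mem_mul (Submodule.pow_mem_pow H' hf₀ B) (pQ f : H').2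
  · intro i hi f hne
    have e : (mQ.comp pQ + (Θ₁.comp toP).comp pP) f = f₀ ^ B * ((pQ f : H') : K) + Θ₁ (toP (pP f)) := rfl
    rw [e] at hne ⊢
    have hpow : ∀ m : ℕ, f₀ ^ m ∈ D.V1 i := by
      intro m
      induction m with
      | zero => intro _; rw [pow_zero, D.v_one]
      | succ m ihm =>
        intro _
        have h6 : f₀ ^ m ≠ 0 := pow_ne_zero _ hf₀0
        rw [pow_succ, D.v_mul i _ _ h6 hf₀0]
        exact add_nonneg (ihm h6) (hi f₀ hf₀ hf₀0)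
    have h4 : f₀ ^ B * ((pQ f : H') : K) ∈ D.V1 i := by
      intro h0
      have h6 : f₀ ^ B ≠ 0 := pow_ne_zero _ hf₀0
      have h7 : ((pQ f : H') : K) ≠ 0 := right_ne_zero_of_mul h0
      rw [D.v_mul i _ _ h6 h7]
      exact add_nonneg (hpow B h6) (hi _ (pQ f : H').2 h7)
    have h5 : Θ₁ (toP (pP f)) ∈ D.V1 i := h2 i (fun g hg hg0 => hi g hg.1 hg0) _
    exact Submodule.add_mem _ h4 h5 hne
  · intro f hf
    have e : (mQ.comp pQ + (Θ₁.comp toP).comp pP) f = f₀ ^ B * ((pQ f : H') : K) + Θ₁ (toP (pP f)) := rfl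
    rw [e] at hf
    have h5 : Θ₁ (toP (pP f)) ∈ D.V1 i₀ := h2 i₀ (fun g hg hg0 => hg.2 hg0) _
    have hk : ((pQ f : H') : K) ∈ D.V1 i₀ := by
      intro hk0
      have h6 : f₀ ^ B ≠ 0 := pow_ne_zero _ hf₀0
      have h7 : f₀ ^ B * ((pQ f : H') : K) ≠ 0 := mul_ne_zero h6 hk0
      have hvp : ∀ m : ℕ, D.v i₀ (f₀ ^ m) = -((m : ℤ) * n₀) := by
        intro m
        induction m with
        | zero => rw [pow_zero, D.v_one]; simp
        | succ m ihm =>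
          rw [pow_succ, D.v_mul i₀ _ _ (pow_ne_zero _ hf₀0) hf₀0, ihm, hf₀1]; push_cast; ring
      have h8 : -((a : ℤ) * D.w i₀) ≤ D.v i₀ (f₀ ^ B * ((pQ f : H') : K)) := by
        by_cases h9 : Θ₁ (toP (pP f)) = 0
        · rw [h9, add_zero] at hf
          have := hf i₀ h7
          linarith
        · by_cases h10 : f₀ ^ B * ((pQ f : H') : K) + Θ₁ (toP (pP f)) = 0
          · have h11 : f₀ ^ B * ((pQ f : H') : K) = -Θ₁ (toP (pP f)) := eq_neg_of_add_eq_zero_left h10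
            rw [h11, D.v_neg i₀ _ h9]
            have := h5 h9
            have h12 : (0 : ℤ) ≤ (a : ℤ) * D.w i₀ := by positivity
            linarith
          · have h11 := hf i₀ h10
            have h12 : f₀ ^ B * ((pQ f : H') : K) = (f₀ ^ B * ((pQ f : H') : K) + Θ₁ (toP (pP f))) + -Θ₁ (toP (pP f)) := by
              ring
            have h13 := D.v_add i₀ (f₀ ^ B * ((pQ f : H') : K) + Θ₁ (toP (pP f))) (-Θ₁ (toP (pP f))) h10 (neg_ne_zero.2 h9)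
              (by rw [← h12]; exact h7)
            rw [← h12, D.v_neg i₀ _ h9] at h13
            have h14 := h5 h9
            have h15 : (0 : ℤ) ≤ (a : ℤ) * D.w i₀ := by positivity
            refine le_trans (le_min ?_ ?_) h13
            · linarith
            · linarith
      rw [D.v_mul i₀ _ _ h6 hk0, hvp B, hBa] at h8
      linarith
    have hk0 : ((pQ f : H') : K) = 0 := by
      have h6 : (pQ f : H') ∈ P ⊓ Q := ⟨hk, (pQ f).2⟩
      rw [hPQ.inf_eq_bot, Submodule.mem_bot] at h6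
      rw [h6]; rfl
    rw [hk0, mul_zero, zero_add] at hf
    have h6 := h3 (toP (pP f)) hf
    have h7 := hdec f
    rw [hk0, add_zero] at h7
    rw [← h7]
    exact h6

theorem cn_all [Finite ι] (ax : D.Ax d) (hfH : D.H.FG) : ∀ (n : ℕ) (H' : Submodule F K), D.L 0 1 ≤ H' → H' ≤ D.H →
    Module.finrank F H' ≤ n → D.Cn H' := by
  classical
  obtain ⟨j₀, hj₀⟩ : ∃ j₀, D.H ≤ D.L j₀ 1 := by
    obtain ⟨S, hS⟩ := hfH
    have : ∃ j₀, ∀ s ∈ S, s ∈ D.L j₀ 1 := by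
      have h1 : ∀ s ∈ S, ∃ j, s ∈ D.L j 1 := by
        intro s hs
        have : s ∈ D.H := by rw [← hS]; exact Submodule.subset_span hs
        exact ax.un 1 s this.1
      choose! j hj using h1
      refine ⟨S.sup j, fun s hs => D.L_mono (Finset.le_sup (f := j) hs) le_rfl (hj s hs)⟩
    obtain ⟨j₀, h⟩ := this
    exact ⟨j₀, by rw [← hS]; exact Submodule.span_le.2 h⟩
  intro n
  induction n with
  | zero =>
    intro H' h1 h2 h3
    have : Module.Finite F D.H := Module.Finite.iff_fg.2 hfH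
    have : Module.Finite F H' := Submodule.finiteDimensional_of_le h2
    have h4 : H' = ⊥ := Submodule.finrank_eq_zero.1 (Nat.le_zero.1 h3)
    exact D.cn_base H' (by rw [h4]; exact bot_le)
  | succ n ih =>
    intro H' h1 h2 h3
    have : Module.Finite F D.H := Module.Finite.iff_fg.2 hfH
    have : Module.Finite F H' := Submodule.finiteDimensional_of_le h2
    by_cases hne : H' ≤ D.L 0 1
    · exact D.cn_base H' hne
    obtain ⟨i₀, n₀, hn₀, ⟨f₀, hf₀, hf₀0, hf₀1⟩, hmax⟩ := D.ext_el H' h2 j₀ (h2.trans hj₀) hne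
    refine D.cn_step ax H' h2 i₀ n₀ hn₀ f₀ hf₀ hf₀0 hf₀1 hmax (ih _ (le_inf h1 ?_) (inf_le_left.trans h2) ?_)
    · intro f hf h0
      have := (D.mem_L.1 hf).2 i₀ h0
      simpa using this
    · have hlt : H' ⊓ D.V1 i₀ < H' := by
        refine lt_of_le_of_ne inf_le_left (fun h => ?_)
        have h4 : f₀ ∈ D.V1 i₀ := by
          have h4' : f₀ ∈ H' ⊓ D.V1 i₀ := by rw [h]; exact hf₀
          exact h4'.2
        have h5 := h4 hf₀0
        rw [hf₀1] at h5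
        have : (0 : ℤ) < n₀ := by exact_mod_cast hn₀
        linarith
      have := Submodule.finrank_lt_finrank_of_lt hlt
      omega

end PP

end Pool.Agent.H60.AB
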