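import Pool.Agent.H60.AB.Chn

/-!
# [H60 AB Fin] the contradiction (MP_e49dc9_ag, abundance)

`pp_false`: the hypotheses `Ax` on the spaces `L j n`, `Gam j n` are contradictory.
-/

set_option autoImplicit false

namespace Pool.Agent.H60.AB

variable {F K κ ι : Type} [Field F] [Field K] [Field κ] [Algebra F K] [Algebra F κ]

namespace PP

variable (D : PP F K κ ι) {d : ℕ}

/-- `lam (m + 1)` on a subspace -/
def lm (m : ℕ) (A : Submodule F K) (hA : A ≤ D.Li (m + 1)) (B : Submodule F κ)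
    (hB : ∀ f ∈ A, D.lam (m + 1) f ∈ B) : A →ₗ[F] B where
  toFun f := ⟨D.lam (m + 1) f, hB f f.2⟩
  map_add' f g := Subtype.ext (D.lam_add (m + 1) f g (hA f.2) (hA g.2))
  map_smul' c f := Subtype.ext (D.lam_smul (m + 1) c f (hA f.2))

theorem ker_lm (m : ℕ) (A : Submodule F K) (hA : A ≤ D.Li (m + 1)) (B : Submodule F κ)
    (hB : ∀ f ∈ A, D.lam (m + 1) f ∈ B) : LinearMap.ker (D.lm m A hA B hB) = (A ⊓ D.Li m).comap A.subtype := by
  ext f
  rw [LinearMap.mem_ker, Submodule.mem_comap]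
  constructor
  · intro h
    have : D.lam (m + 1) (f : K) = 0 := congrArg Subtype.val h
    exact ⟨f.2, (D.lam_ker m f (hA f.2)).1 this⟩
  · intro h
    exact Subtype.ext ((D.lam_ker m f (hA f.2)).2 h.2)

theorem finrank_comap (A B : Submodule F K) (h : B ≤ A) : Module.finrank F (B.comap A.subtype) = Module.finrank F B :=
  (Submodule.comapSubtypeEquivOfLe h).finrank_eq

theorem fg_lm (m : ℕ) (A : Submodule F K) (hA : A ≤ D.Li (m + 1)) (B : Submodule F κ)
    (hB : ∀ f ∈ A, D.lam (m + 1) f ∈ B) (hBf : B.FG) (hk : (A ⊓ D.Li m).FG) : A.FG := by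
  have : Module.Finite F B := Module.Finite.iff_fg.2 hBf
  have h1 : Module.Finite F ↥(A ⊓ D.Li m) := Module.Finite.iff_fg.2 hk
  rw [← Module.Finite.iff_fg]
  rw [Module.finite_def]
  refine Submodule.fg_of_fg_map_of_fg_inf_ker (D.lm m A hA B hB) ?_ ?_
  · exact IsNoetherian.noetherian _
  · rw [top_inf_eq, D.ker_lm]
    have : Module.Finite F ↥((A ⊓ D.Li m).comap A.subtype) :=
      Module.Finite.equiv (Submodule.comapSubtypeEquivOfLe (p := A ⊓ D.Li m) (q := A) inf_le_left).symm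
    exact Module.Finite.iff_fg.1 this

theorem rk_le (m : ℕ) (A : Submodule F K) (hA : A ≤ D.Li (m + 1)) (B : Submodule F κ)
    (hB : ∀ f ∈ A, D.lam (m + 1) f ∈ B) (hBf : B.FG) (hk : (A ⊓ D.Li m).FG) :
    Module.finrank F A ≤ Module.finrank F ↥(A ⊓ D.Li m) + Module.finrank F B := by
  have h0 : Module.Finite F B := Module.Finite.iff_fg.2 hBf
  have h1 : Module.Finite F A := Module.Finite.iff_fg.2 (D.fg_lm m A hA B hB hBf hk)
  have h2 := (D.lm m A hA B hB).finrank_range_add_finrank_ker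
  rw [D.ker_lm, finrank_comap _ _ inf_le_left] at h2
  have h3 := Submodule.finrank_le (LinearMap.range (D.lm m A hA B hB))
  omega

theorem rk_eq (m : ℕ) (A : Submodule F K) (hA : A ≤ D.Li (m + 1)) (B : Submodule F κ)
    (hB : ∀ f ∈ A, D.lam (m + 1) f ∈ B) (hBf : B.FG) (hk : (A ⊓ D.Li m).FG)
    (hs : ∀ g ∈ B, ∃ f ∈ A, D.lam (m + 1) f = g) :
    Module.finrank F A = Module.finrank F ↥(A ⊓ D.Li m) + Module.finrank F B := by
  have h0 : Module.Finite F B := Module.Finite.iff_fg.2 hBf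
  have h1 : Module.Finite F A := Module.Finite.iff_fg.2 (D.fg_lm m A hA B hB hBf hk)
  have h2 := (D.lm m A hA B hB).finrank_range_add_finrank_ker
  rw [D.ker_lm, finrank_comap _ _ inf_le_left] at h2
  have h3 : LinearMap.range (D.lm m A hA B hB) = ⊤ := by
    rw [LinearMap.range_eq_top]
    rintro ⟨g, hg⟩
    obtain ⟨f, hf, h⟩ := hs g hg
    exact ⟨⟨f, hf⟩, Subtype.ext h⟩
  rw [h3, finrank_top] at h2
  omega

theorem L_inf (j n : ℕ) : D.L j (n + 1) ⊓ D.Li n = D.L j n := by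
  ext f
  constructor
  · rintro ⟨h1, h2⟩
    rw [SetLike.mem_coe, D.mem_L] at h1
    exact D.mem_L.2 ⟨h2, h1.2⟩
  · intro h
    exact ⟨D.L_mono le_rfl (Nat.le_succ n) h, (D.mem_L.1 h).1⟩

/-- the dimension of `HH a N n` -/
theorem rk_HH (ax : D.Ax d) (a N n : ℕ) : (D.HH a N n).FG ∧
    Module.finrank F (D.HH a N n) ≤ 1 + ∑ m ∈ Finset.range n, Module.finrank F (D.Gam a (m + 1)) := by
  have hfin0 : Module.Finite F (D.Li 0) := Module.finite_of_finrank_pos (by rw [ax.R]; exact one_pos)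
  induction n with
  | zero =>
    have h1 : D.HH a N 0 ≤ D.Li 0 := fun h hh => hh.1
    have : Module.Finite F (D.HH a N 0) := Submodule.finiteDimensional_of_le h1
    refine ⟨Module.Finite.iff_fg.1 this, ?_⟩
    have h2 := Submodule.finrank_mono h1
    rw [ax.R] at h2
    simpa using h2
  | succ n ih =>
    have hA : D.HH a N (n + 1) ≤ D.Li (n + 1) := fun h hh => hh.1
    have hx0 : ∀ x ∈ (D.L 0 1) ^ N, x ∈ D.Li N := fun x hx => (D.mem_L.1 (D.pow_L N hx)).1
    have hB : ∀ h ∈ D.HH a N (n + 1), D.lam (n + 1) h ∈ D.Gam a (n + 1) := by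
      intro h hh
      refine ax.sat a N (n + 1) _ (fun x hx => ?_)
      rw [← D.lam_mul N (n + 1) x h (hx0 x hx) hh.1]
      obtain ⟨Y, hY, Z, hZ, hYZ⟩ := Submodule.mem_sup.1 (hh.2 x hx)
      rw [← hYZ, D.lam_add (N + (n + 1)) Y Z (D.mem_L.1 hY).1 (D.mono' (by omega) hZ)]
      have h3 : D.lam (N + (n + 1)) Z = 0 := by
        have h4 : Z ∈ D.Li (N + n) := D.mono' (by omega) hZ
        exact (D.lam_ker (N + n) Z (D.mono _ h4)).2 h4
      rw [h3, add_zero]
      exact ax.lamG a (N + (n + 1)) Y hY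
    have hk : D.HH a N (n + 1) ⊓ D.Li n ≤ D.HH a N n := by
      rintro h ⟨h1, h2⟩
      refine ⟨h2, fun x hx => ?_⟩
      obtain ⟨Y, hY, Z, hZ, hYZ⟩ := Submodule.mem_sup.1 (h1.2 x hx)
      have h3 : x * h ∈ D.Li (N + n) := D.mul N n x h (hx0 x hx) h2
      have h4 : Z ∈ D.Li (N + n) := D.mono' (by omega) hZ
      have h5 : Y ∈ D.Li (N + n) := by
        have : Y = x * h - Z := by rw [← hYZ]; ring
        rw [this]; exact Submodule.sub_mem _ h3 h4
      rw [← hYZ]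
      refine Submodule.add_mem_sup ?_ hZ
      have h6 := (D.mem_L.1 hY).2
      exact D.mem_L.2 ⟨h5, h6⟩
    have hfin : Module.Finite F (D.HH a N n) := Module.Finite.iff_fg.2 ih.1
    have hfk : (D.HH a N (n + 1) ⊓ D.Li n).FG :=
      Module.Finite.iff_fg.1 (Submodule.finiteDimensional_of_le hk)
    refine ⟨D.fg_lm n _ hA _ hB (ax.fG _ _) hfk, ?_⟩
    have h7 := D.rk_le n _ hA _ hB (ax.fG _ _) hfk
    have h8 := Submodule.finrank_mono hk
    rw [Finset.sum_range_succ]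
    omega

theorem rk_H (ax : D.Ax d) : D.H.FG ∧ Module.finrank F D.H = 1 + Module.finrank F (D.Gam 0 1) := by
  have hfin0 : Module.Finite F (D.Li 0) := Module.finite_of_finrank_pos (by rw [ax.R]; exact one_pos)
  have hA : D.H ≤ D.Li (0 + 1) := fun f hf => hf.1
  have hB : ∀ f ∈ D.H, D.lam (0 + 1) f ∈ D.Gam 0 1 := fun f hf => hf.2
  have hk : D.H ⊓ D.Li 0 = D.Li 0 := by
    refine le_antisymm inf_le_right (le_inf (fun f hf => ?_) le_rfl)
    have h1 : f ∈ D.Li (0 + 1) := D.mono 0 hf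
    have h2 : D.lam (0 + 1) f = 0 := (D.lam_ker 0 f h1).2 hf
    refine ⟨h1, ?_⟩
    show D.lam (0 + 1) f ∈ _
    rw [h2]; exact Submodule.zero_mem _
  have hkf : (D.H ⊓ D.Li 0).FG := by rw [hk]; exact Module.Finite.iff_fg.1 hfin0
  refine ⟨D.fg_lm 0 _ hA _ hB (ax.fG _ _) hkf, ?_⟩
  have h1 := D.rk_eq 0 _ hA _ hB (ax.fG _ _) hkf (fun g hg => by
    obtain ⟨f, hf, h⟩ := ax.H1 g hg
    refine ⟨f, ⟨hf, ?_⟩, h⟩
    rw [h]; exact hg)
  rw [hk, ax.R] at h1
  exact h1

theorem rk_L0 (ax : D.Ax d) (n : ℕ) (hn : 1 ≤ n) :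
    Module.finrank F (D.L 0 (n + 1)) = Module.finrank F (D.L 0 n) + Module.finrank F (D.Gam 0 (n + 1)) := by
  have hA : D.L 0 (n + 1) ≤ D.Li (n + 1) := fun f hf => (D.mem_L.1 hf).1
  have h1 := D.rk_eq n _ hA _ (fun f hf => ax.lamG 0 (n + 1) f hf) (ax.fG _ _) (by rw [D.L_inf]; exact ax.fL _ _)
    (ax.Y1 (n + 1) (by omega))
  rwa [D.L_inf] at h1

theorem rk_Lj (ax : D.Ax d) (j n : ℕ) :
    Module.finrank F (D.L j (n + 1)) ≤ Module.finrank F (D.L j n) + Module.finrank F (D.Gam j (n + 1)) := by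
  have hA : D.L j (n + 1) ≤ D.Li (n + 1) := fun f hf => (D.mem_L.1 hf).1
  have h1 := D.rk_le n _ hA _ (fun f hf => ax.lamG j (n + 1) f hf) (ax.fG _ _) (by rw [D.L_inf]; exact ax.fL _ _)
  rwa [D.L_inf] at h1

/-- `(H3)` -/
theorem h3 (ax : D.Ax d) (j m : ℕ) (hm : 1 ≤ m) :
    Module.finrank F (D.L 0 m) + j * m * d ≤ Module.finrank F (D.L j m) := by
  obtain ⟨m₀, hm₀⟩ := ax.AS j
  have key : ∀ k m : ℕ, 1 ≤ m → m₀ ≤ m + k → Module.finrank F (D.L 0 m) + j * m * d ≤ Module.finrank F (D.L j m) := by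
    intro k
    induction k with
    | zero => intro m _ h; exact hm₀ m h
    | succ k ih =>
      intro m h1 h2
      have h3 := ih (m + 1) (by omega) (by omega)
      have h4 := D.rk_L0 ax m h1
      have h5 := D.rk_Lj ax j m
      have h6 := ax.H4 j (m + 1) (by omega)
      have h7 : j * (m + 1) * d = j * m * d + j * d := by ring
      omega
  exact key m₀ m hm (by omega)

theorem rk_L0' (ax : D.Ax d) (n : ℕ) : Module.finrank F (D.L 0 (n + 1)) + Module.finrank F (D.Gam 0 1) =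
    Module.finrank F (D.L 0 1) + ∑ m ∈ Finset.range (n + 1), Module.finrank F (D.Gam 0 (m + 1)) := by
  induction n with
  | zero => simp
  | succ n ih =>
    have h1 := D.rk_L0 ax (n + 1) (by omega)
    rw [Finset.sum_range_succ]
    omega

/-- the contradiction -/
theorem pp_false [Finite ι] (ax : D.Ax d) : False := by
  obtain ⟨hHf, hH⟩ := D.rk_H ax
  obtain ⟨a₀, ha₀, hc⟩ := D.cn_all ax hHf _ D.H (D.L_le_H ax) le_rfl le_rfl
  obtain ⟨j₁, hj₁⟩ := ax.H4'
  set a : ℕ := a₀ * (j₁ + 1) with ha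
  have hapos : 0 < a := Nat.mul_pos ha₀ (Nat.succ_pos _)
  have haj : j₁ ≤ a := by nlinarith
  obtain ⟨B, Θ, h1, _, h3'⟩ := hc a (Dvd.intro _ rfl) hapos
  set N : ℕ := B + 1 with hN
  obtain ⟨hHHf, hHH⟩ := D.rk_HH ax a N N
  have hfH : Module.Finite F D.H := Module.Finite.iff_fg.2 hHf
  have hfHH : Module.Finite F (D.HH a N N) := Module.Finite.iff_fg.2 hHHf
  have hfL : Module.Finite F (D.L 0 1) := Module.Finite.iff_fg.2 (ax.fL 0 1)
  have hLle : D.L a N ≤ D.HH a N N := by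
    intro f hf
    refine ⟨(D.mem_L.1 hf).1, fun x hx => ?_⟩
    have := D.L_mul (D.pow_L N hx) hf
    rw [Nat.zero_add] at this
    exact Submodule.mem_sup_left this
  set Q : Submodule F (D.HH a N N) := (D.L a N).comap (D.HH a N N).subtype with hQ
  let Θ' : D.H →ₗ[F] D.HH a N N := LinearMap.codRestrict (D.HH a N N) Θ (fun f => h1 f N le_rfl)
  let ψ : D.H →ₗ[F] (D.HH a N N ⧸ Q) := Q.mkQ.comp Θ'
  have hker : LinearMap.ker ψ ≤ (D.L 0 1).comap D.H.subtype := by
    intro f hf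
    rw [LinearMap.mem_ker] at hf
    have h4 : Θ' f ∈ Q := (Submodule.Quotient.mk_eq_zero Q).1 hf
    have h5 : Θ f ∈ D.L a N := h4
    exact h3' f (D.mem_L.1 h5).2
  have e1 := ψ.finrank_range_add_finrank_ker
  have e2 := Submodule.finrank_mono hker
  rw [finrank_comap _ _ (D.L_le_H ax)] at e2
  have e3 := Submodule.finrank_le (LinearMap.range ψ)
  have e4 := Submodule.finrank_quotient_add_finrank Q
  have e5 : Module.finrank F Q = Module.finrank F (D.L a N) := finrank_comap _ _ hLle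
  have e6 := D.h3 ax a N (by omega)
  have e7 := D.rk_L0' ax B
  have e8 : ∑ m ∈ Finset.range (B + 1), Module.finrank F (D.Gam a (m + 1)) + 1 ≤
      ∑ m ∈ Finset.range (B + 1), Module.finrank F (D.Gam 0 (m + 1)) + (B + 1) * (a * d) := by
    rw [Finset.sum_range_succ', Finset.sum_range_succ']
    have h8 := hj₁ a haj
    have h9 : ∑ m ∈ Finset.range B, Module.finrank F (D.Gam a (m + 1 + 1)) ≤
        ∑ m ∈ Finset.range B, (Module.finrank F (D.Gam 0 (m + 1 + 1)) + a * d) :=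
      Finset.sum_le_sum (fun m _ => ax.H4 a (m + 1 + 1) (by omega))
    rw [Finset.sum_add_distrib, Finset.sum_const, Finset.card_range, smul_eq_mul] at h9
    have h10 : (B + 1) * (a * d) = B * (a * d) + a * d := by ring
    rw [Nat.zero_add]
    omega
  rw [← hN] at e7 e8
  have e9 : a * N * d = N * (a * d) := by ring
  omega

end PP

end Pool.Agent.H60.AB
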