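import Pool.Agent.H54.RV.B1
import Pool.Agent.H83.TK.PreV

/-!
# [H60 AB NmA] abundance: the normal model of a field, algebra

`ic C`: the elements of `K` which are integral over the subalgebra `C`.  `int_den`: denominators in integral equations.
`locS B q`: the localization of `B` at the prime ideal `q` in `K`.
-/

set_option autoImplicit false

namespace Pool.Agent.H60.AB

open Pool.Agent.H54.RV

variable {F K : Type} [Field F] [Field K] [Algebra F K]

/-- the elements of `K` which are integral over the subalgebra `C` -/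
noncomputable def ic (C : Subalgebra F K) : Subalgebra F K := (integralClosure C K).restrictScalars F

theorem mem_ic (C : Subalgebra F K) (x : K) : x ∈ ic C ↔ IsIntegral C x := Iff.rfl

theorem le_ic (C : Subalgebra F K) : C ≤ ic C := fun x hx =>
  isIntegral_algebraMap (R := C) (A := K) (x := ⟨x, hx⟩)

/-- integral elements over a smaller subalgebra -/
theorem int_mono {C D : Subalgebra F K} (h : C ≤ D) {x : K} (hx : IsIntegral C x) : IsIntegral D x := by
  obtain ⟨P, hP, hP0⟩ := hx
  refine ⟨P.map (Subalgebra.inclusion h : C →ₐ[F] D).toRingHom, hP.map _, ?_⟩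
  rw [Polynomial.eval₂_map]
  exact hP0

theorem ic_mono {C D : Subalgebra F K} (h : C ≤ D) : ic C ≤ ic D := fun _ hx => int_mono h hx

theorem ic_ic (C : Subalgebra F K) : ic (ic C) = ic C := by
  refine le_antisymm (fun x hx => ?_) (le_ic _)
  let f : C →+* ic C := (Subalgebra.inclusion (le_ic C) : C →ₐ[F] ic C).toRingHom
  let _ : Algebra C (ic C) := f.toAlgebra
  have : IsScalarTower C (ic C) K := IsScalarTower.of_algebraMap_eq fun _ => rfl
  have h1 : Algebra.IsIntegral C (ic C) := by
    refine ⟨fun y => ?_⟩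
    have h2 : IsIntegral C (y : K) := y.2
    exact (isIntegral_algebraMap_iff (R := C) (A := ic C) (B := K) Subtype.val_injective).1 h2
  have h3 : IsIntegral (ic C) x := hx
  exact isIntegral_trans (R := C) (A := ic C) x h3

/-- denominators -/
theorem int_den (C D : Subalgebra F K) (S : Submonoid C) (hS : (0 : C) ∉ S)
    (h : ∀ d ∈ D, ∃ s ∈ S, d * (s : K) ∈ C) {x : K} (hx : IsIntegral D x) : ∃ s ∈ S, IsIntegral C (x * (s : K)) := by
  classical
  obtain ⟨P, hP, hP0⟩ := hx
  -- a common denominator of the coefficients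
  have h1 : ∀ T : Finset ℕ, ∃ s ∈ S, ∀ i ∈ T, (P.coeff i : K) * (s : K) ∈ C := by
    intro T
    induction T using Finset.induction_on with
    | empty => exact ⟨1, S.one_mem, fun i hi => absurd hi (Finset.notMem_empty i)⟩
    | insert i T _ ih =>
      obtain ⟨s, hs, h2⟩ := ih
      obtain ⟨u, hu, h3⟩ := h _ (P.coeff i).2
      refine ⟨s * u, S.mul_mem hs hu, fun j hj => ?_⟩
      rcases Finset.mem_insert.1 hj with rfl | hj
      · have e : (P.coeff j : K) * ((s * u : C) : K) = (P.coeff j : K) * (u : K) * (s : K) := by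
          push_cast
          ring
        rw [e]
        exact C.mul_mem h3 s.2
      · have e : (P.coeff j : K) * ((s * u : C) : K) = (P.coeff j : K) * (s : K) * (u : K) := by
          push_cast
          ring
        rw [e]
        exact C.mul_mem (h2 j hj) u.2
  obtain ⟨s, hs, h2⟩ := h1 (Finset.range P.natDegree)
  refine ⟨s, hs, ?_⟩
  obtain ⟨m, hm⟩ : ∃ m, m = P.natDegree := ⟨_, rfl⟩
  rw [← hm] at h2
  -- the new polynomial
  let c : ℕ → C := fun i => if hi : i < m then
    ⟨(P.coeff i : K) * (s : K), h2 i (Finset.mem_range.2 hi)⟩ * s ^ (m - i - 1) else 0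
  let Q : Polynomial C := Polynomial.X ^ m + ∑ i ∈ Finset.range m, Polynomial.C (c i) * Polynomial.X ^ i
  have hdeg : (∑ i ∈ Finset.range m, Polynomial.C (c i) * Polynomial.X ^ i : Polynomial C).degree < m := by
    rw [Finset.sum_range]
    exact Polynomial.degree_sum_fin_lt _
  refine ⟨Q, Polynomial.monic_X_pow_add hdeg, ?_⟩
  have e1 : Polynomial.eval₂ (algebraMap C K) (x * (s : K)) Q = (x * s) ^ m +
      ∑ i ∈ Finset.range m, (c i : K) * (x * (s : K)) ^ i := by
    show Polynomial.eval₂ (algebraMap C K) (x * (s : K)) (Polynomial.X ^ m +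
      ∑ i ∈ Finset.range m, Polynomial.C (c i) * Polynomial.X ^ i) = _
    rw [Polynomial.eval₂_add, Polynomial.eval₂_pow, Polynomial.eval₂_X, Polynomial.eval₂_finsetSum]
    congr 1
    refine Finset.sum_congr rfl fun i _ => ?_
    rw [Polynomial.eval₂_mul, Polynomial.eval₂_C, Polynomial.eval₂_pow, Polynomial.eval₂_X]
    rfl
  have e2 : ∑ i ∈ Finset.range m, (c i : K) * (x * (s : K)) ^ i =
      (s : K) ^ m * ∑ i ∈ Finset.range m, (P.coeff i : K) * x ^ i := by
    rw [Finset.mul_sum]
    refine Finset.sum_congr rfl fun i hi => ?_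
    have him := Finset.mem_range.1 hi
    have e3 : (c i : K) = (P.coeff i : K) * (s : K) * (s : K) ^ (m - i - 1) := by
      simp only [c, dif_pos him]
      push_cast
      rfl
    have e4 : (s : K) ^ m = (s : K) * (s : K) ^ (m - i - 1) * (s : K) ^ i := by
      rw [mul_comm (s : K), ← pow_succ, ← pow_add]
      congr 1
      omega
    rw [e3, e4, mul_pow]
    ring
  have e5 : x ^ m + ∑ i ∈ Finset.range m, (P.coeff i : K) * x ^ i = 0 := by
    rw [Polynomial.eval₂_eq_sum_range, Finset.sum_range_succ, ← hm] at hP0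
    have e6 : (algebraMap D K) (P.coeff m) = 1 := by
      rw [hm, Polynomial.coeff_natDegree, hP.leadingCoeff, map_one]
    rw [e6, one_mul, add_comm] at hP0
    exact hP0
  rw [e1, e2, mul_pow, mul_comm (x ^ m), ← mul_add, e5, mul_zero]

section loc

/-- the localization of `B` at the prime ideal `q`, in `K` -/
def locS (B : Subalgebra F K) (q : Ideal B) [hq : q.IsPrime] : Subalgebra F K where
  carrier := {c | ∃ a s : B, s ∉ q ∧ c * (s : K) = a}
  mul_mem' := by
    rintro c d ⟨a, s, hs, h1⟩ ⟨b, t, ht, h2⟩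
    refine ⟨a * b, s * t, fun h => (hq.mem_or_mem h).elim hs ht, ?_⟩
    push_cast
    rw [← h1, ← h2]
    ring
  add_mem' := by
    rintro c d ⟨a, s, hs, h1⟩ ⟨b, t, ht, h2⟩
    refine ⟨a * t + b * s, s * t, fun h => (hq.mem_or_mem h).elim hs ht, ?_⟩
    push_cast
    rw [← h1, ← h2]
    ring
  algebraMap_mem' c := ⟨algebraMap F B c, 1, fun h => hq.ne_top ((Ideal.eq_top_iff_one q).2 h), by
    rw [OneMemClass.coe_one, mul_one]
    rfl⟩

variable (B : Subalgebra F K) (q : Ideal B) [hq : q.IsPrime]

theorem mem_locS (c : K) : c ∈ locS B q ↔ ∃ a s : B, s ∉ q ∧ c * (s : K) = a := Iff.rfl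

theorem le_locS : B ≤ locS B q := fun b hb =>
  ⟨⟨b, hb⟩, 1, fun h => hq.ne_top ((Ideal.eq_top_iff_one q).2 h), by rw [OneMemClass.coe_one, mul_one]⟩

omit hq in
theorem ne_zero_of_notMem {s : B} (hs : s ∉ q) : (s : K) ≠ 0 := by
  intro h
  apply hs
  have : s = 0 := Subtype.ext h
  rw [this]
  exact q.zero_mem

theorem un_locS (b : B) : Un (locS B q) (b : K) ↔ b ∉ q := by
  constructor
  · rintro ⟨h0, -, a, s, hs, h1⟩ hb
    apply hs
    have h2 : s = a * b := by
      apply Subtype.ext
      push_cast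
      rw [← h1, mul_right_comm, inv_mul_cancel₀ h0, one_mul]
    rw [h2]
    exact q.mul_mem_left _ hb
  · intro hb
    exact ⟨ne_zero_of_notMem B q hb, le_locS B q b.2, 1, b, hb, by
      rw [inv_mul_cancel₀ (ne_zero_of_notMem B q hb), OneMemClass.coe_one]⟩

theorem loc_locS : IsLocalRing (locS B q) := by
  apply IsLocalRing.of_isUnit_or_isUnit_one_sub_self
  rintro ⟨c, hc⟩
  obtain ⟨a, s, hs, h1⟩ := id hc
  have hs0 := ne_zero_of_notMem B q hs
  by_cases ha : a ∈ q
  · right
    have h2 : s - a ∉ q := fun h => hs ((Submodule.sub_mem_iff_left q ha).1 h)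
    have h3 : (1 - ⟨c, hc⟩ : locS B q) = ⟨1 - c, sub_mem (one_mem _) hc⟩ := rfl
    rw [h3, un_iff]
    have h4 : 1 - c = ((s - a : B) : K) / s := by
      rw [eq_div_iff hs0]
      push_cast
      rw [← h1]
      ring
    rw [h4]
    exact un_div ((un_locS B q _).2 h2) ((un_locS B q _).2 hs)
  · left
    rw [un_iff]
    have h4 : c = (a : K) / s := by
      rw [eq_div_iff hs0]
      exact h1
    rw [h4]
    exact un_div ((un_locS B q _).2 ha) ((un_locS B q _).2 hs)

/-- localizations of an integrally closed subalgebra are integrally closed -/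
theorem ic_locS (hB : ic B = B) : ic (locS B q) = locS B q := by
  refine le_antisymm (fun x hx => ?_) (le_ic _)
  obtain ⟨s, hs, h1⟩ := int_den B (locS B q) q.primeCompl (fun h => h q.zero_mem) (by
    rintro d ⟨a, s, hs, h1⟩
    exact ⟨s, hs, by rw [h1]; exact a.2⟩) hx
  have h2 : x * (s : K) ∈ B := hB.le h1
  exact ⟨⟨_, h2⟩, s, hs, rfl⟩

end loc

end Pool.Agent.H60.AB
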