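import Pool.Agent.H60.AB.NmA

/-!
# [H60 AB NmB] abundance: the normal model of a field, points and charts

`a : ι → K`, all `a i ≠ 0`.  `Cj a j = F[a i / a j : i]`, `Bj a j` its integral closure in `K`.  `NP a`: the localizations of the `Bj` at the
prime ideals.  `chart a j`: the points `R` with `Bj a j ≤ R`.
-/

set_option autoImplicit false

namespace Pool.Agent.H60.AB

open Pool.Agent.H54.RV Pool.Agent.H83.TK

variable (F : Type) {K : Type} [Field F] [Field K] [Algebra F K] {ι : Type} (a : ι → K)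

/-- the algebra of the quotients -/
noncomputable def Cj (j : ι) : Subalgebra F K := Algebra.adjoin F (Set.range fun i => a i / a j)

/-- its integral closure -/
noncomputable def Bj (j : ι) : Subalgebra F K := ic (Cj F a j)

/-- the points of the normal model -/
def NP : Type := {R : Subalgebra F K // ∃ (j : ι) (q : Ideal (Bj F a j)) (_ : q.IsPrime), R = locS (Bj F a j) q}

variable {F}

theorem mem_Cj (i j : ι) : a i / a j ∈ Cj F a j := Algebra.subset_adjoin ⟨i, rfl⟩

theorem mem_Bj (i j : ι) : a i / a j ∈ Bj F a j := le_ic _ (mem_Cj a i j)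

theorem ic_Bj (j : ι) : ic (Bj F a j) = Bj F a j := ic_ic _

variable {a}

theorem NP.loc (R : NP F a) : IsLocalRing R.1 := by
  obtain ⟨R, j, q, hq, rfl⟩ := R
  exact loc_locS _ q

theorem NP.ic (R : NP F a) : ic R.1 = R.1 := by
  obtain ⟨R, j, q, hq, rfl⟩ := R
  exact ic_locS _ q (ic_Bj a j)

theorem Bj_le_iff (R : NP F a) (j : ι) : Bj F a j ≤ R.1 ↔ ∀ i, a i / a j ∈ R.1 := by
  constructor
  · intro h i
    exact h (mem_Bj a i j)
  · intro h
    rw [← R.ic]
    refine ic_mono (Algebra.adjoin_le ?_)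
    rintro _ ⟨i, rfl⟩
    exact h i

theorem exists_Bj (R : NP F a) : ∃ j, Bj F a j ≤ R.1 := by
  obtain ⟨R, j, q, hq, rfl⟩ := R
  exact ⟨j, le_locS _ q⟩

/-- two charts -/
theorem un_of_two (ha : ∀ i, a i ≠ 0) (R : NP F a) {i j : ι} (hi : Bj F a i ≤ R.1) (hj : Bj F a j ≤ R.1) :
    Un R.1 (a i / a j) := by
  refine ⟨div_ne_zero (ha i) (ha j), hj (mem_Bj a i j), ?_⟩
  rw [inv_div]
  exact hi (mem_Bj a j i)

theorem Bj_le_of_un (R : NP F a) (ha : ∀ i, a i ≠ 0) {i j : ι} (hi : Bj F a i ≤ R.1) (h : Un R.1 (a j / a i)) :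
    Bj F a j ≤ R.1 := by
  rw [Bj_le_iff]
  intro l
  have h1 : a l / a j = a l / a i * (a j / a i)⁻¹ := by
    have := ha i
    have := ha j
    field_simp
  rw [h1]
  exact mul_mem (hi (mem_Bj a l i)) h.2.2

/-- elements of `Bj i` in the chart `j` -/
theorem Bj_den (ha : ∀ i, a i ≠ 0) (i j : ι) {b : K} (hb : b ∈ Bj F a i) : ∃ n : ℕ, b * (a i / a j) ^ n ∈ Bj F a j := by
  let u : Cj F a j := ⟨a i / a j, mem_Cj a i j⟩
  have hu : (u : K) ≠ 0 := div_ne_zero (ha i) (ha j)
  have h0 : (0 : Cj F a j) ∉ Submonoid.powers u := by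
    rintro ⟨n, hn⟩
    have h1 : (u : K) ^ n = 0 := by
      have := congrArg (Subtype.val) hn
      simpa using this
    exact pow_ne_zero n hu h1
  have hS : Submonoid.powers u = Submonoid.powers u := rfl
  obtain ⟨_, ⟨n, rfl⟩, h1⟩ := int_den (Cj F a j) (Cj F a i) (Submonoid.powers u) h0 (by
    intro d hd
    have key : ∃ n : ℕ, d * (a i / a j) ^ n ∈ Cj F a j := by
      induction hd using Algebra.adjoin_induction with
      | mem x hx =>
        obtain ⟨l, rfl⟩ := hx
        refine ⟨1, ?_⟩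
        have h2 : a l / a i * (a i / a j) ^ 1 = a l / a j := by
          have := ha i
          have := ha j
          field_simp
        rw [h2]
        exact mem_Cj a l j
      | algebraMap c =>
        refine ⟨0, ?_⟩
        rw [pow_zero, mul_one]
        exact Subalgebra.algebraMap_mem _ c
      | add x y _ _ hx hy =>
        obtain ⟨n, hn⟩ := hx
        obtain ⟨m, hm⟩ := hy
        refine ⟨n + m, ?_⟩
        have h2 : (x + y) * (a i / a j) ^ (n + m) = x * (a i / a j) ^ n * (a i / a j) ^ m +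
            y * (a i / a j) ^ m * (a i / a j) ^ n := by
          rw [pow_add]
          ring
        rw [h2]
        exact add_mem (mul_mem hn (pow_mem (mem_Cj a i j) m)) (mul_mem hm (pow_mem (mem_Cj a i j) n))
      | mul x y _ _ hx hy =>
        obtain ⟨n, hn⟩ := hx
        obtain ⟨m, hm⟩ := hy
        refine ⟨n + m, ?_⟩
        have h2 : x * y * (a i / a j) ^ (n + m) = x * (a i / a j) ^ n * (y * (a i / a j) ^ m) := by
          rw [pow_add]
          ring
        rw [h2]
        exact mul_mem hn hm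
    obtain ⟨n, hn⟩ := key
    exact ⟨u ^ n, ⟨n, rfl⟩, by
      have h3 : ((u ^ n : Cj F a j) : K) = (a i / a j) ^ n := by
        push_cast
        rfl
      rw [h3]
      exact hn⟩) hb
  refine ⟨n, ?_⟩
  have h3 : (((fun x => u ^ x) n : Cj F a j) : K) = (a i / a j) ^ n := by
    show ((u ^ n : Cj F a j) : K) = _
    push_cast
    rfl
  rw [h3] at h1
  exact h1

/-- a point in the chart `j` is the localization of `Bj j` -/
theorem mem_of_chart (ha : ∀ i, a i ≠ 0) (R : NP F a) {j : ι} (hj : Bj F a j ≤ R.1) (c : K) :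
    c ∈ R.1 ↔ ∃ b ∈ Bj F a j, ∃ s ∈ Bj F a j, Un R.1 s ∧ c * s = b := by
  constructor
  · intro hc
    obtain ⟨R, i, q, hq, rfl⟩ := R
    have hi := le_locS (Bj F a i) q
    have hu := un_of_two ha ⟨_, i, q, hq, rfl⟩ hi hj
    obtain ⟨b, s, hs, h1⟩ := hc
    obtain ⟨n, hn⟩ := Bj_den ha i j b.2
    obtain ⟨m, hm⟩ := Bj_den ha i j s.2
    have hs' := (un_locS (Bj F a i) q s).2 hs
    refine ⟨(b : K) * (a i / a j) ^ n * (a i / a j) ^ m, mul_mem hn (pow_mem (mem_Bj a i j) m),
      (s : K) * (a i / a j) ^ m * (a i / a j) ^ n, mul_mem hm (pow_mem (mem_Bj a i j) n),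
      un_mul (un_mul hs' (un_pow hu m)) (un_pow hu n), ?_⟩
    rw [← h1]
    ring
  · rintro ⟨b, hb, s, hs, hu, h1⟩
    have h2 : c = b * s⁻¹ := by
      rw [← h1, mul_assoc, mul_inv_cancel₀ hu.1, mul_one]
    rw [h2]
    exact mul_mem (hj hb) hu.2.2

variable (F) in
/-- the charts -/
def chart (a : ι → K) (j : ι) : Set (NP F a) := {R | Bj F a j ≤ R.1}

variable (F) in
/-- the normal model: points, local rings, charts -/
noncomputable def npre (a : ι → K) : Pre F K where
  P := NP F a
  O R := R.1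
  loc R := R.loc
  ch := Set.range (chart F a)

/-- the functions on a chart -/
theorem npre_sec (j : ι) : (npre F a).sec (chart F a j) = Bj F a j := by
  apply le_antisymm
  · intro x hx
    rw [Pre.mem_sec'] at hx
    let J : Ideal (Bj F a j) :=
      { carrier := {s | x * (s : K) ∈ Bj F a j}
        zero_mem' := by
          show x * ((0 : Bj F a j) : K) ∈ Bj F a j
          rw [ZeroMemClass.coe_zero, mul_zero]
          exact zero_mem _
        add_mem' := by
          intro s t hs ht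
          show x * ((s + t : Bj F a j) : K) ∈ Bj F a j
          push_cast
          rw [mul_add]
          exact add_mem hs ht
        smul_mem' := by
          intro c s hs
          show x * ((c * s : Bj F a j) : K) ∈ Bj F a j
          have e : x * ((c * s : Bj F a j) : K) = c * (x * s) := by
            push_cast
            ring
          rw [e]
          exact mul_mem c.2 hs }
    by_cases hJ : J = ⊤
    · have h1 : (1 : Bj F a j) ∈ J := by
        rw [hJ]
        trivial
      have h2 : x * ((1 : Bj F a j) : K) ∈ Bj F a j := h1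
      rwa [OneMemClass.coe_one, mul_one] at h2
    · obtain ⟨q, hq, hJq⟩ := Ideal.exists_le_maximal J hJ
      have hqp := hq.isPrime
      obtain ⟨b, s, hs, h1⟩ := hx ⟨locS (Bj F a j) q, j, q, hqp, rfl⟩ (le_locS (Bj F a j) q)
      refine absurd (hJq ?_) hs
      show x * (s : K) ∈ Bj F a j
      rw [h1]
      exact b.2
  · intro x hx
    rw [Pre.mem_sec']
    intro R hR
    exact hR hx

theorem npre_sp (z x : NP F a) (h : x.1 ≤ z.1) : (npre F a).sp z x := by
  rintro _ ⟨j, rfl⟩ c _ ⟨h1, h2⟩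
  exact ⟨le_trans (a := Bj F a j) h1 h, un_mono (A := x.1) h h2⟩

theorem npre_sp' (z x : NP F a) (h : (npre F a).sp z x) : x.1 ≤ z.1 := by
  obtain ⟨j, hj⟩ := exists_Bj x
  have hz : Bj F a j ≤ z.1 := (h (chart F a j) ⟨j, rfl⟩ 1 (one_mem _) ⟨hj, un_one x.1⟩).1
  obtain ⟨R, i, q, hq, rfl⟩ := x
  have h1 : Bj F a i ≤ z.1 := (h (chart F a i) ⟨i, rfl⟩ 1 (one_mem _) ⟨le_locS (Bj F a i) q,
    un_one (locS (Bj F a i) q)⟩).1
  rintro c ⟨b, s, hs, h2⟩
  have h3 : Un z.1 (s : K) := (h (chart F a i) ⟨i, rfl⟩ (s : K) (by rw [npre_sec]; exact s.2)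
    ⟨le_locS (Bj F a i) q, (un_locS (Bj F a i) q s).2 hs⟩).2
  have h4 : c = b * (s : K)⁻¹ := by
    rw [← h2, mul_assoc, mul_inv_cancel₀ h3.1, mul_one]
  rw [h4]
  exact mul_mem (h1 b.2) h3.2.2

end Pool.Agent.H60.AB
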