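import Pool.Agent.H60.AB.NmB
import Pool.Agent.H24.TK.Frm
import Pool.Agent.H24.TK.Alg

/-!
# [H60 AB NmC] abundance: the normal model of a field is a projective variety

`nok`: the axioms `Ok` of `npre F a` (`K` finitely generated over `F`, algebraic over the quotients `a i / a j`, characteristic `0`).
`NM F a : Mod F K`: the normal model.  `nm_var`, `nm_gen`, `nm_t0`, `nm_ic` (normal), `nmA` (the divisor with the sections `a i`), `nm_fr`
(`a` is a frame of `nmA`), `nm_amp`.
-/

set_option autoImplicit false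

namespace Pool.Agent.H60.AB

open Pool.Agent.H54.RV Pool.Agent.H83.TK Pool.Agent.H83.TU

variable {F K : Type} [Field F] [Field K] [Algebra F K] {ι : Type} {a : ι → K}

/-- the hypotheses on `a` -/
structure Ha (F : Type) {K : Type} [Field F] [Field K] [Algebra F K] {ι : Type} (a : ι → K) : Prop where
  fin : Finite ι
  ne : Nonempty ι
  ne0 : ∀ i, a i ≠ 0
  fg : (⊤ : IntermediateField F K).FG
  alg : ∀ j, Algebra.IsAlgebraic (Cj F a j) K

/-- the existence of the centre -/
private theorem cen_ex (ha : ∀ i, a i ≠ 0) [Finite ι] (z : (npre F a).P) (p : Place F ((npre F a).mod.kap z)) :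
    ∃ x : NP F a, x.1 ≤ z.1 ∧ ∀ c ∈ x.1, (npre F a).mod.rs z c ∈ p.R ∧
      ((npre F a).mod.rs z c ≠ 0 → ((npre F a).mod.rs z c)⁻¹ ∈ p.R → c⁻¹ ∈ x.1) := by
  classical
  have := Fintype.ofFinite ι
  set ρ := (npre F a).mod.rs z with hρ
  obtain ⟨i₀, hi₀⟩ := exists_Bj (F := F) (a := a) z
  have hO : (npre F a).mod.O z = z.1 := rfl
  have hmul : ∀ {b c : K}, b ∈ z.1 → c ∈ z.1 → ρ (b * c) = ρ b * ρ c := fun hb hc => rs_mul (X := (npre F a).mod) z hb hc
  have hadd : ∀ {b c : K}, b ∈ z.1 → c ∈ z.1 → ρ (b + c) = ρ b + ρ c := fun hb hc => rs_add (X := (npre F a).mod) z hb hc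
  have hne : ∀ {b : K}, b ∈ z.1 → (ρ b ≠ 0 ↔ Un z.1 b) := fun hb => rs_ne (X := (npre F a).mod) z hb
  have hinv : ∀ {b : K}, Un z.1 b → ρ b⁻¹ = (ρ b)⁻¹ := fun hb => rs_inv (X := (npre F a).mod) z hb
  have hone : ρ 1 = 1 := rs_one (X := (npre F a).mod) z
  have hm : ∀ l, a l / a i₀ ∈ z.1 := fun l => hi₀ (mem_Bj a l i₀)
  have h1 : ρ (a i₀ / a i₀) ≠ 0 := by
    rw [div_self (ha i₀), hone]
    exact one_ne_zero
  obtain ⟨j, hj, hmax⟩ := Finset.exists_max_image (Finset.univ.filter fun l => ρ (a l / a i₀) ≠ 0)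
    (fun l => p.R.valuation (ρ (a l / a i₀))) ⟨i₀, Finset.mem_filter.2 ⟨Finset.mem_univ _, h1⟩⟩
  have hj0 := (Finset.mem_filter.1 hj).2
  have hjU : Un z.1 (a j / a i₀) := (hne (hm j)).1 hj0
  have hjz : Bj F a j ≤ z.1 := Bj_le_of_un z ha hi₀ hjU
  have hq : ∀ l, ρ (a l / a j) ∈ p.R := by
    intro l
    have e : a l / a j = a l / a i₀ * (a j / a i₀)⁻¹ := by
      have := ha i₀
      have := ha j
      field_simp
    rw [e, hmul (hm l) hjU.2.2, hinv hjU, ← p.R.valuation_le_one_iff, map_mul, map_inv₀]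
    by_cases h2 : ρ (a l / a i₀) = 0
    · rw [h2, map_zero, zero_mul]
      exact zero_le
    · have h3 := hmax l (Finset.mem_filter.2 ⟨Finset.mem_univ _, h2⟩)
      rw [← div_eq_mul_inv]
      exact div_le_one_of_le₀ h3 zero_le
  -- the residue classes of `Bj`
  have hC : ∀ c ∈ Cj F a j, ρ c ∈ p.R := by
    intro c hc
    induction hc using Algebra.adjoin_induction with
    | mem x hx =>
      obtain ⟨l, rfl⟩ := hx
      exact hq l
    | algebraMap c =>
      have := rs_alg (X := (npre F a).mod) z c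
      rw [← hρ] at this
      rw [this]
      exact p.mem c
    | add x y hx hy h2 h3 =>
      have hx' : x ∈ z.1 := hjz (le_ic _ hx)
      have hy' : y ∈ z.1 := hjz (le_ic _ hy)
      rw [hadd hx' hy']
      exact p.R.add_mem _ _ h2 h3
    | mul x y hx hy h2 h3 =>
      have hx' : x ∈ z.1 := hjz (le_ic _ hx)
      have hy' : y ∈ z.1 := hjz (le_ic _ hy)
      rw [hmul hx' hy']
      exact p.R.mul_mem _ _ h2 h3
  have hB : ∀ b ∈ Bj F a j, ρ b ∈ p.R := by
    intro b hb
    obtain ⟨P, hP, hP0⟩ := hb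
    let φ : Cj F a j →+* p.R :=
      { toFun := fun c => ⟨ρ c, hC c c.2⟩
        map_one' := Subtype.ext (show ρ (1 : K) = 1 from hone)
        map_mul' := fun c d => Subtype.ext (by
          show ρ ((c * d : Cj F a j) : K) = ρ c * ρ d
          push_cast
          exact hmul (hjz (le_ic _ c.2)) (hjz (le_ic _ d.2)))
        map_zero' := Subtype.ext (by
          show ρ ((0 : Cj F a j) : K) = 0
          have h0 := hadd (b := 0) (c := 0) (zero_mem _) (zero_mem _)
          rw [add_zero] at h0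
          have h0' : ρ 0 = 0 := by
            have := left_eq_add.1 h0
            exact this
          rw [ZeroMemClass.coe_zero]
          exact h0')
        map_add' := fun c d => Subtype.ext (by
          show ρ ((c + d : Cj F a j) : K) = ρ c + ρ d
          push_cast
          exact hadd (hjz (le_ic _ c.2)) (hjz (le_ic _ d.2))) }
    let ψ : z.1 →+* (npre F a).mod.kap z :=
      { toFun := fun c => ρ c
        map_one' := hone
        map_mul' := fun c d => hmul c.2 d.2
        map_zero' := by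
          have h0 := hadd (b := 0) (c := 0) (zero_mem _) (zero_mem _)
          rw [add_zero] at h0
          exact left_eq_add.1 h0
        map_add' := fun c d => hadd c.2 d.2 }
    let i : Cj F a j →+* z.1 :=
      { toFun := fun c => ⟨c, hjz (le_ic _ c.2)⟩
        map_one' := rfl
        map_mul' := fun _ _ => rfl
        map_zero' := rfl
        map_add' := fun _ _ => rfl }
    have hb : b ∈ z.1 := hjz ⟨P, hP, hP0⟩
    have h2 : Polynomial.eval₂ i (⟨b, hb⟩ : z.1) P = 0 := by
      apply Subtype.ext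
      have h3 := Polynomial.hom_eval₂ P i (z.1.val : z.1 →+* K) (⟨b, hb⟩ : z.1)
      have h4 : (z.1.val : z.1 →+* K).comp i = algebraMap (Cj F a j) K := rfl
      rw [h4] at h3
      exact h3.trans hP0
    have h3 : Polynomial.eval₂ (ψ.comp i) (ψ ⟨b, hb⟩) P = 0 := by
      rw [← Polynomial.hom_eval₂, h2, map_zero]
    have h4 : IsIntegral p.R (ρ b) := by
      refine ⟨P.map φ, hP.map φ, ?_⟩
      rw [Polynomial.eval₂_map]
      exact h3
    obtain ⟨y, hy⟩ := IsIntegrallyClosed.isIntegral_iff.1 h4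
    rw [← hy]
    exact y.2
  -- the prime ideal
  let q : Ideal (Bj F a j) :=
    { carrier := {b | ρ (b : K) = 0 ∨ (ρ (b : K))⁻¹ ∉ p.R}
      zero_mem' := by
        left
        have h0 := hadd (b := 0) (c := 0) (zero_mem _) (zero_mem _)
        rw [add_zero] at h0
        rw [ZeroMemClass.coe_zero]
        exact left_eq_add.1 h0
      add_mem' := by
        intro b c hb hc
        have hb' := hB b b.2
        have hc' := hB c c.2
        have e : ρ ((b + c : Bj F a j) : K) = ρ b + ρ c := by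
          push_cast
          exact hadd (hjz b.2) (hjz c.2)
        show ρ ((b + c : Bj F a j) : K) = 0 ∨ (ρ ((b + c : Bj F a j) : K))⁻¹ ∉ p.R
        rw [e]
        have key : ∀ t : (npre F a).mod.kap z, t ∈ p.R → ((t = 0 ∨ t⁻¹ ∉ p.R) ↔ p.R.valuation t < 1) := by
          intro t ht
          constructor
          · rintro (h | h)
            · rw [h, map_zero]
              exact zero_lt_one
            · rw [← p.R.valuation_le_one_iff, map_inv₀, not_le] at h
              by_cases h0 : t = 0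
              · rw [h0, map_zero]
                exact zero_lt_one
              · have h5 : 0 < p.R.valuation t := zero_lt_iff.2 ((Valuation.ne_zero_iff _).2 h0)
                exact (one_lt_inv₀ h5).1 h
          · intro h
            by_cases h0 : t = 0
            · exact Or.inl h0
            · right
              rw [← p.R.valuation_le_one_iff, map_inv₀, not_le]
              have h5 : 0 < p.R.valuation t := zero_lt_iff.2 ((Valuation.ne_zero_iff _).2 h0)
              exact (one_lt_inv₀ h5).2 h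
        rw [key _ (p.R.add_mem _ _ hb' hc')]
        exact (p.R.valuation.map_add_lt ((key _ hb').1 hb) ((key _ hc').1 hc))
      smul_mem' := by
        intro c b hb
        have hb' := hB b b.2
        have hc' := hB c c.2
        have e : ρ ((c * b : Bj F a j) : K) = ρ c * ρ b := by
          push_cast
          exact hmul (hjz c.2) (hjz b.2)
        show ρ ((c * b : Bj F a j) : K) = 0 ∨ (ρ ((c * b : Bj F a j) : K))⁻¹ ∉ p.R
        rw [e]
        rcases hb with h | h
        · left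
          rw [show ρ (b : K) = 0 from h, mul_zero]
        · by_cases h0 : ρ (c : K) * ρ (b : K) = 0
          · exact Or.inl h0
          · right
            intro h5
            apply h
            have h6 : (ρ (b : K))⁻¹ = ρ (c : K) * (ρ (c : K) * ρ (b : K))⁻¹ := by
              have h7 := left_ne_zero_of_mul h0
              have h8 := right_ne_zero_of_mul h0
              field_simp
            rw [h6]
            exact p.R.mul_mem _ _ hc' h5 }
  have hqm : ∀ b : Bj F a j, b ∉ q ↔ ρ (b : K) ≠ 0 ∧ (ρ (b : K))⁻¹ ∈ p.R := by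
    intro b
    show ¬ (ρ (b : K) = 0 ∨ (ρ (b : K))⁻¹ ∉ p.R) ↔ _
    tauto
  have hqp : q.IsPrime := by
    refine ⟨fun h => ?_, fun {b c} hbc => ?_⟩
    · have h5 : (1 : Bj F a j) ∈ q := by
        rw [h]
        trivial
      refine (hqm 1).2 ⟨?_, ?_⟩ h5
      · rw [OneMemClass.coe_one, hone]
        exact one_ne_zero
      · rw [OneMemClass.coe_one, hone, inv_one]
        exact p.R.one_mem
    · by_contra h
      push Not at h
      obtain ⟨h5, h6⟩ := h
      rw [hqm] at h5 h6
      refine (hqm (b * c)).2 ⟨?_, ?_⟩ hbc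
      · push_cast
        rw [hmul (hjz b.2) (hjz c.2)]
        exact mul_ne_zero h5.1 h6.1
      · push_cast
        rw [hmul (hjz b.2) (hjz c.2), mul_inv]
        exact p.R.mul_mem _ _ h5.2 h6.2
  refine ⟨⟨locS (Bj F a j) q, j, q, hqp, rfl⟩, ?_, ?_⟩
  · rintro c ⟨b, s, hs, h5⟩
    have h6 := (hqm s).1 hs
    have h7 := (hne (hjz s.2)).1 h6.1
    have h8 : c = b * (s : K)⁻¹ := by
      rw [← h5, mul_assoc, mul_inv_cancel₀ h7.1, mul_one]
    rw [h8]
    exact mul_mem (hjz b.2) h7.2.2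
  · rintro c ⟨b, s, hs, h5⟩
    have h6 := (hqm s).1 hs
    have h7 := (hne (hjz s.2)).1 h6.1
    have h8 : c = b * (s : K)⁻¹ := by
      rw [← h5, mul_assoc, mul_inv_cancel₀ h7.1, mul_one]
    have h9 : ρ c = ρ b * (ρ (s : K))⁻¹ := by
      rw [h8, hmul (hjz b.2) h7.2.2, hinv h7]
    refine ⟨?_, fun h10 h11 => ?_⟩
    · rw [h9]
      exact p.R.mul_mem _ _ (hB b b.2) h6.2
    · have h12 : b ∉ q := by
        rw [hqm]
        have h13 : ρ (b : K) = ρ c * ρ (s : K) := by
          rw [h9, mul_assoc, inv_mul_cancel₀ h6.1, mul_one]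
        refine ⟨?_, ?_⟩
        · rw [h13]
          exact mul_ne_zero h10 h6.1
        · rw [h13, mul_inv]
          exact p.R.mul_mem _ _ h11 h6.2
      refine ⟨s, b, h12, ?_⟩
      rw [h8, mul_inv, inv_inv, mul_comm ((b : K)⁻¹), mul_assoc, inv_mul_cancel₀ (ne_zero_of_notMem _ q h12), mul_one]

/-- uniqueness of the centre -/
private theorem cen_un (ha : ∀ i, a i ≠ 0) (z : (npre F a).P) (p : Place F ((npre F a).mod.kap z)) (x y : NP F a)
    (hx : x.1 ≤ z.1) (hx' : ∀ c ∈ x.1, (npre F a).mod.rs z c ∈ p.R ∧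
      ((npre F a).mod.rs z c ≠ 0 → ((npre F a).mod.rs z c)⁻¹ ∈ p.R → c⁻¹ ∈ x.1))
    (hy : y.1 ≤ z.1) (hy' : ∀ c ∈ y.1, (npre F a).mod.rs z c ∈ p.R ∧
      ((npre F a).mod.rs z c ≠ 0 → ((npre F a).mod.rs z c)⁻¹ ∈ p.R → c⁻¹ ∈ y.1)) : x = y := by
  set ρ := (npre F a).mod.rs z with hρ
  have hne : ∀ {b : K}, b ∈ z.1 → (ρ b ≠ 0 ↔ Un z.1 b) := fun hb => rs_ne (X := (npre F a).mod) z hb
  have hinv : ∀ {b : K}, Un z.1 b → ρ b⁻¹ = (ρ b)⁻¹ := fun hb => rs_inv (X := (npre F a).mod) z hb
  obtain ⟨j, hj⟩ := exists_Bj x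
  obtain ⟨j', hj'⟩ := exists_Bj y
  have hu : Un z.1 (a j / a j') := un_of_two ha z (hj.trans hx) (hj'.trans hy)
  have h1 : Un y.1 (a j / a j') := by
    refine ⟨hu.1, hj' (mem_Bj a j j'), ?_⟩
    refine (hy' _ (hj' (mem_Bj a j j'))).2 ((hne hu.2.1).2 hu) ?_
    rw [← hinv hu, inv_div]
    exact (hx' _ (hj (mem_Bj a j' j))).1
  have hyj : Bj F a j ≤ y.1 := Bj_le_of_un y ha hj' h1
  have key : ∀ s ∈ Bj F a j, (Un x.1 s ↔ Un y.1 s) := by
    have h2 : ∀ (w : NP F a), w.1 ≤ z.1 → (∀ c ∈ w.1, ρ c ∈ p.R ∧ (ρ c ≠ 0 → (ρ c)⁻¹ ∈ p.R → c⁻¹ ∈ w.1)) →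
        ∀ s ∈ w.1, (Un w.1 s ↔ ρ s ≠ 0 ∧ (ρ s)⁻¹ ∈ p.R) := by
      intro w hw hw' s hs
      constructor
      · intro h3
        have h4 := un_mono hw h3
        refine ⟨(hne h4.2.1).2 h4, ?_⟩
        rw [← hinv h4]
        exact (hw' _ h3.2.2).1
      · rintro ⟨h3, h4⟩
        exact ⟨((hne (hw hs)).1 h3).1, hs, (hw' s hs).2 h3 h4⟩
    intro s hs
    rw [h2 x hx hx' s (hj hs), h2 y hy hy' s (hyj hs)]
  apply Subtype.ext
  ext c
  rw [mem_of_chart ha x hj, mem_of_chart ha y hyj]
  constructor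
  · rintro ⟨b, hb, s, hs, h3, h4⟩
    exact ⟨b, hb, s, hs, (key s hs).1 h3, h4⟩
  · rintro ⟨b, hb, s, hs, h3, h4⟩
    exact ⟨b, hb, s, hs, (key s hs).2 h3, h4⟩

/-- the algebra of a chart is finitely generated -/
private theorem bj_fg [CharZero F] (h : Ha F a) (j : ι) : (Bj F a j).FG := by
  have := h.fin
  have := h.alg j
  have hft : Algebra.FiniteType F (Cj F a j) :=
    (Subalgebra.fg_iff_finiteType _).1 (Subalgebra.fg_def.2 ⟨_, Set.finite_range _, rfl⟩)
  have hN := Pool.Agent.H24.TK.int_noeth (k := F) (A := Cj F a j) (L := K) (h.alg j) h.fg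
  rw [Subalgebra.fg_iff_finiteType]
  have h1 : Module.Finite (Cj F a j) (integralClosure (Cj F a j) K) := Module.IsNoetherian.finite _ _
  have h2 : Algebra.FiniteType F (integralClosure (Cj F a j) K) :=
    Algebra.FiniteType.trans (S := Cj F a j) hft inferInstance
  exact h2

theorem nok [CharZero F] (h : Ha F a) : (npre F a).Ok where
  ne := by
    obtain ⟨j⟩ := h.ne
    exact ⟨⟨locS (Bj F a j) ⊥, j, ⊥, inferInstance, rfl⟩⟩
  fin := by
    have := h.fin
    exact ⟨Set.range (chart F a), Set.finite_range _, le_rfl, fun x => by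
      obtain ⟨j, hj⟩ := exists_Bj (F := F) (a := a) x
      exact ⟨chart F a j, ⟨j, rfl⟩, hj⟩⟩
  fg := by
    rintro _ ⟨j, rfl⟩ -
    rw [npre_sec]
    exact bj_fg h j
  frac := by
    rintro _ ⟨j, rfl⟩ x hx b hb
    obtain ⟨c, hc, s, hs, h1, h2⟩ := (mem_of_chart h.ne0 x hx b).1 hb
    rw [npre_sec]
    exact ⟨s, hs, h1, by rw [h2]; exact hc⟩
  prime := by
    rintro _ ⟨j, rfl⟩ -
    rw [npre_sec]
    intro I hI
    exact ⟨⟨locS (Bj F a j) I, j, I, hI, rfl⟩, le_locS (Bj F a j) I, fun b => by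
      have := un_locS (Bj F a j) I b
      constructor
      · intro hb h1
        exact this.1 h1 hb
      · intro hb
        by_contra h1
        exact hb (this.2 h1)⟩
  com := by
    rintro _ ⟨i, rfl⟩ _ ⟨j, rfl⟩ x hi hj
    refine ⟨a j / a i, ?_, un_of_two h.ne0 x hj hi, ?_⟩
    · rw [npre_sec]
      exact mem_Bj a j i
    · rintro y ⟨hy, hu⟩
      exact Bj_le_of_un y h.ne0 hy hu
  cen := by
    intro z p
    have := h.fin
    obtain ⟨x, hx, hx'⟩ := cen_ex h.ne0 z p
    refine ⟨x, ⟨npre_sp z x hx, hx'⟩, ?_⟩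
    rintro y ⟨hy, hy'⟩
    exact cen_un h.ne0 z p y x (npre_sp' z y hy) hy' hx hx'

variable (F) in
/-- the normal model -/
noncomputable def NM {K : Type} [Field K] [Algebra F K] {ι : Type} (a : ι → K) : Mod F K := (npre F a).mod

theorem nm_var [CharZero F] (h : Ha F a) : IsVar (NM F a) := Pre.isVar (nok h)

theorem nm_sp [CharZero F] (h : Ha F a) (z x : NP F a) : @Specializes (NM F a).P _ z x ↔ x.1 ≤ z.1 := by
  have h1 := Pre.sp_iff (nok h) z x
  exact h1.trans ⟨npre_sp' z x, npre_sp z x⟩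

theorem nm_t0 [CharZero F] (h : Ha F a) : T0Space (NM F a).P :=
  Pre.t0 (nok h) fun _ _ h1 h2 => Subtype.ext (le_antisymm (npre_sp' _ _ h2) (npre_sp' _ _ h1))

theorem nm_ic (x : (NM F a).P) : ic ((NM F a).O x) = (NM F a).O x := NP.ic x

theorem nm_gen [CharZero F] (h : Ha F a) : ∃ g, Gen (NM F a) g := by
  obtain ⟨j⟩ := h.ne
  let g : NP F a := ⟨locS (Bj F a j) ⊥, j, ⊥, inferInstance, rfl⟩
  have hg : g.1 = ⊤ := by
    rw [eq_top_iff]
    intro c _
    have := h.alg j
    have h1 : IsAlgebraic (Cj F a j) c := Algebra.IsAlgebraic.isAlgebraic c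
    obtain ⟨s, hs, h2⟩ := h1.exists_integral_multiple
    have h3 : (s : K) * c ∈ Bj F a j := by
      have h4 : s • c = (s : K) * c := rfl
      rw [h4] at h2
      exact h2
    refine ⟨⟨_, h3⟩, ⟨(s : K), le_ic _ s.2⟩, ?_, mul_comm _ _⟩
    intro h4
    rw [Ideal.mem_bot] at h4
    have h5 : (s : K) = 0 := congrArg Subtype.val h4
    exact hs (Subtype.ext h5)
  exact ⟨g, hg, fun x => (nm_sp h g x).2 (by rw [hg]; exact le_top)⟩

end Pool.Agent.H60.AB
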