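import Pool.Agent.H60.AB.NmC

/-!
# [H60 AB NmD] abundance: the normal model of a field, the ample divisor

`nmA h`: the local equation at `x` is `(a j)⁻¹`, `j` with `Bj a j ≤ O x`.  The `a i` are a frame (`nm_fr`), so it is ample.
-/

set_option autoImplicit false

namespace Pool.Agent.H60.AB

open Pool.Agent.H54.RV Pool.Agent.H83.TK Pool.Agent.H83.TU

variable {F K : Type} [Field F] [Field K] [Algebra F K] {ι : Type} {a : ι → K}

/-- a chart of a point -/
noncomputable def nj (x : NP F a) : ι := (exists_Bj x).choose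

theorem nj_le (x : NP F a) : Bj F a (nj x) ≤ x.1 := (exists_Bj x).choose_spec

theorem nm_open [CharZero F] (h : Ha F a) (j : ι) : @IsOpen (NM F a).P _ (chart F a j) :=
  (nm_var h).op _ (Pre.bas_ch (M := npre F a) ⟨j, rfl⟩)

/-- the divisor of the sections `a i` -/
noncomputable def nmA [CharZero F] (h : Ha F a) : Cart (NM F a) where
  eq x := (a (nj (F := F) x))⁻¹
  ne x := inv_ne_zero (h.ne0 _)
  loc x := ⟨chart F a (nj (F := F) x), nm_open h _, nj_le (F := F) x, fun y hy => by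
    have h1 : (a (nj (F := F) y))⁻¹ / (a (nj (F := F) x))⁻¹ = a (nj (F := F) x) / a (nj (F := F) y) := by
      rw [inv_div_inv]
    rw [h1]
    exact un_of_two h.ne0 y hy (nj_le y)⟩

theorem nmA_mul [CharZero F] (h : Ha F a) (x : (NM F a).P) (i : ι) :
    a i * (nmA h).eq x ^ 1 = a i / a (nj (F := F) x) := by
  rw [pow_one, div_eq_mul_inv]
  rfl

theorem nmA_nz [CharZero F] (h : Ha F a) (i : ι) : nz (nmA h) 1 (a i) = chart F a i := by
  ext x
  show Un ((NM F a).O x) (a i * (nmA h).eq x ^ 1) ↔ Bj F a i ≤ x.1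
  rw [nmA_mul]
  constructor
  · intro h1
    exact Bj_le_of_un x h.ne0 (nj_le x) h1
  · intro h1
    exact un_of_two h.ne0 x h1 (nj_le x)

theorem nmA_sec [CharZero F] (h : Ha F a) (i : ι) : Sec (nmA h) 1 (a i) := by
  intro x
  rw [nmA_mul]
  exact nj_le (F := F) x (mem_Bj a i _)

theorem nmA_aff [CharZero F] (h : Ha F a) (i : ι) : (NM F a).aff (nz (nmA h) 1 (a i)) := by
  rw [nmA_nz]
  exact Pre.bas_ch (M := npre F a) ⟨i, rfl⟩

theorem nmA_amp [CharZero F] (h : Ha F a) : Ample (nmA h) := fun x =>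
  ⟨1, le_rfl, a (nj (F := F) x), nmA_sec h _, by
    rw [nmA_nz]
    exact nj_le (F := F) x, nmA_aff h _⟩

/-- the sections `a` are a frame -/
theorem nm_fr [CharZero F] {r : ℕ} {a : Fin r → K} (h : Ha F a) : Pool.Agent.H24.TK.Fr (nmA h) r a where
  sec := nmA_sec h
  aff := nmA_aff h
  cov x := ⟨nj (F := F) x, by
    rw [nmA_nz]
    exact nj_le (F := F) x⟩

/-- regular functions on a chart -/
theorem nm_sec [CharZero F] (h : Ha F a) (i : ι) : (NM F a).sec (nz (nmA h) 1 (a i)) = Bj F a i := by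
  rw [nmA_nz]
  exact npre_sec i

end Pool.Agent.H60.AB
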